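import Pool.Agent.PackWidth.Proof

set_option autoImplicit false

open Pool.Agent.PackWidth

namespace Pool.Agent.Results.MP_1a6900_co.PackingOrder

/-- **Order of magnitude of `N(n,t)`.** For every fixed `t ∈ (0,1]` one has
`N(n,t) = Θ(2^n / n)`; explicitly `2^n / (2n) ≤ N(n,t) ≤ 2^n / (n+1)` for all `n ≥ 1`, and
`N(n,t) = 2^n / (n+1)` exactly whenever `n + 1` is a power of two. (The first clause records
that the supremum defining `N n t` is a maximum.) -/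
theorem result (t : ℝ) (ht0 : 0 < t) (ht1 : t ≤ 1) :
    (∀ n : ℕ, IsGreatest {k : ℕ | ∃ P : Finset (Set (EuclideanSpace ℝ (Fin n))),
      IsPacking n t P ∧ P.card = k} (N n t)) ∧
    ((fun n : ℕ => (N n t : ℝ)) =Θ[Filter.atTop] fun n : ℕ => (2 : ℝ) ^ n / n) ∧
    (∀ n : ℕ, 1 ≤ n → (2 : ℝ) ^ n / (2 * n) ≤ N n t ∧ (N n t : ℝ) ≤ 2 ^ n / (n + 1)) ∧
    (∀ n k : ℕ, 1 ≤ n → n + 1 = 2 ^ k → (N n t : ℝ) = 2 ^ n / (n + 1)) :=
  Pool.Agent.PackWidth.main t ht0 ht1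

end Pool.Agent.Results.MP_1a6900_co.PackingOrder
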